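import Pool.Agent.H98.ABCR.Stmts

set_option autoImplicit false

namespace Pool.Agent.H98.ABCR

open Finset Polynomial

private theorem rnk_exp_bound (A δ κ L : ℝ) (hA : 0 < A) (hδ : 0 < δ) (hκ : 0 < κ) (hκ1 : κ < 1)
    (hL : 1 < L) : A * L ^ (1 - κ / 4) ≤ δ * L + A * (A / δ) ^ (4 / κ) := by
  have hL0 : 0 < L := by linarith
  have hq : 0 < A / δ := div_pos hA hδ
  rcases le_total L ((A / δ) ^ (4 / κ)) with h | h
  · have h1 : L ^ (1 - κ / 4) ≤ L := by
      calc L ^ (1 - κ / 4) ≤ L ^ (1 : ℝ) :=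
            Real.rpow_le_rpow_of_exponent_le hL.le (by linarith)
        _ = L := Real.rpow_one L
    have h2 : A * L ^ (1 - κ / 4) ≤ A * (A / δ) ^ (4 / κ) :=
      mul_le_mul_of_nonneg_left (h1.trans h) hA.le
    have h3 : 0 ≤ δ * L := by positivity
    linarith
  · have h1 : A / δ ≤ L ^ (κ / 4) := by
      have := Real.rpow_le_rpow (by positivity) h (by positivity : (0 : ℝ) ≤ κ / 4)
      rw [← Real.rpow_mul hq.le] at this
      have he : 4 / κ * (κ / 4) = 1 := by field_simp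
      rwa [he, Real.rpow_one] at this
    have h2 : A ≤ δ * L ^ (κ / 4) := by
      rw [div_le_iff₀ hδ] at h1
      linarith
    have h3 : A * L ^ (1 - κ / 4) ≤ δ * L := by
      calc A * L ^ (1 - κ / 4) ≤ δ * L ^ (κ / 4) * L ^ (1 - κ / 4) :=
            mul_le_mul_of_nonneg_right h2 (by positivity)
        _ = δ * (L ^ (κ / 4) * L ^ (1 - κ / 4)) := by ring
        _ = δ * L := by
            rw [← Real.rpow_add hL0]
            norm_num
    have h4 : 0 ≤ A * (A / δ) ^ (4 / κ) := by positivity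
    linarith

theorem rnk_thm (hR : S_RAD) : S_RNK := by
  intro K η κ hK hη hκ hκ1
  have hKr : (1 : ℝ) ≤ K := by exact_mod_cast hK
  have hA : 0 < 2 * (K : ℝ) * (4 / κ) * 2 := by positivity
  have hδ : 0 < κ / 2 * η := by positivity
  obtain ⟨A, hAdef⟩ : ∃ A : ℝ, A = 2 * (K : ℝ) * (4 / κ) * 2 := ⟨_, rfl⟩
  obtain ⟨L0, hL0def⟩ : ∃ L0 : ℝ, L0 = (A / (κ / 2 * η)) ^ (4 / κ) := ⟨_, rfl⟩
  rw [← hAdef] at hA
  have hL0 : 0 ≤ L0 := by rw [hL0def]; positivity
  refine ⟨Real.exp (A * L0), Real.one_le_exp (by positivity), ?_⟩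
  intro Z hZ
  have hZ0 : (0 : ℝ) < Z := by linarith
  have hZ1 : (1 : ℝ) ≤ Z := by linarith
  obtain ⟨L, hLdef⟩ : ∃ L : ℝ, L = Real.log Z := ⟨_, rfl⟩
  have hL1 : 1 < L := by
    rw [hLdef, Real.lt_log_iff_exp_lt hZ0]
    have := Real.exp_one_lt_d9
    linarith
  have hLpos : 0 < L := by linarith
  have hlogL : 0 < Real.log L := Real.log_pos hL1
  obtain ⟨B, hBdef⟩ : ∃ B : ℝ, B = L ^ (1 - κ / 2) := ⟨_, rfl⟩
  have hB1 : 1 ≤ B := by
    rw [hBdef]; exact Real.one_le_rpow hL1.le (by linarith)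
  obtain ⟨T, hTdef⟩ : ∃ T : ℕ, T = ⌈B⌉₊ := ⟨_, rfl⟩
  have hTB : B ≤ (T : ℝ) := by rw [hTdef]; exact Nat.le_ceil B
  have hT1 : (1 : ℝ) ≤ (T : ℝ) := hB1.trans hTB
  have hT1n : 1 ≤ T := by exact_mod_cast hT1
  have hT2 : (T : ℝ) ≤ 2 * B := by
    have := (Nat.ceil_lt_add_one (by linarith : (0 : ℝ) ≤ B)).le
    rw [← hTdef] at this
    linarith
  obtain ⟨w, hwdef⟩ : ∃ w : ℝ, w = η * Real.log Z / Real.log (Real.log Z) := ⟨_, rfl⟩
  rw [← hwdef]
  have hw : w * Real.log L = η * L := by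
    rw [hwdef, ← hLdef]; field_simp
  have hw0 : 0 ≤ w := by
    rw [hwdef, ← hLdef]; positivity
  -- step 1
  have h1 : ∑ n ∈ (Icc 1 ⌊Z⌋₊).filter (fun n => w < (om n : ℝ)), (K : ℝ) ^ om n
      ≤ (T : ℝ) ^ (-w) * (Z * (1 + Real.log Z) ^ (K * T)) := by
    calc ∑ n ∈ (Icc 1 ⌊Z⌋₊).filter (fun n => w < (om n : ℝ)), (K : ℝ) ^ om n
        ≤ ∑ n ∈ (Icc 1 ⌊Z⌋₊).filter (fun n => w < (om n : ℝ)),
            (T : ℝ) ^ (-w) * (((K * T : ℕ) : ℝ)) ^ om n := by
          refine sum_le_sum fun n hn => ?_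
          rw [mem_filter] at hn
          have h2 : (1 : ℝ) ≤ (T : ℝ) ^ (-w) * (T : ℝ) ^ om n := by
            rw [← Real.rpow_natCast (T : ℝ) (om n), ← Real.rpow_add (by linarith)]
            exact Real.one_le_rpow hT1 (by linarith [hn.2])
          have h3 : (0 : ℝ) ≤ (K : ℝ) ^ om n := by positivity
          calc (K : ℝ) ^ om n = 1 * (K : ℝ) ^ om n := (one_mul _).symm
            _ ≤ ((T : ℝ) ^ (-w) * (T : ℝ) ^ om n) * (K : ℝ) ^ om n :=
                mul_le_mul_of_nonneg_right h2 h3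
            _ = (T : ℝ) ^ (-w) * (((K * T : ℕ) : ℝ)) ^ om n := by
                push_cast; rw [mul_pow]; ring
      _ ≤ ∑ n ∈ Icc 1 ⌊Z⌋₊, (T : ℝ) ^ (-w) * (((K * T : ℕ) : ℝ)) ^ om n := by
          refine sum_le_sum_of_subset_of_nonneg (filter_subset _ _) fun n _ _ => ?_
          positivity
      _ = (T : ℝ) ^ (-w) * ∑ n ∈ Icc 1 ⌊Z⌋₊, (((K * T : ℕ) : ℝ)) ^ om n := by
          rw [mul_sum]
      _ ≤ (T : ℝ) ^ (-w) * (Z * (1 + Real.log Z) ^ (K * T)) := by
          refine mul_le_mul_of_nonneg_left ?_ (by positivity)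
          exact (hR (K * T) Z (Nat.one_le_iff_ne_zero.mpr (by positivity)) hZ1).1
  refine h1.trans ?_
  -- step 2 : T^(-w)
  have h2 : (T : ℝ) ^ (-w) ≤ Real.exp (-((1 - κ / 2) * η * L)) := by
    calc (T : ℝ) ^ (-w) ≤ B ^ (-w) :=
          Real.rpow_le_rpow_of_nonpos (by linarith) hTB (by linarith)
      _ = Real.exp (-((1 - κ / 2) * η * L)) := by
          rw [hBdef, ← Real.rpow_mul hLpos.le, Real.rpow_def_of_pos hLpos]
          congr 1
          linear_combination (-(1 - κ / 2)) * hw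
  -- step 3 : the power
  have hlog1 : Real.log (1 + L) ≤ 4 / κ * (2 * L ^ (κ / 4)) := by
    have hk4 : 0 < κ / 4 := by positivity
    have ha := Real.log_le_rpow_div (by linarith : (0 : ℝ) ≤ 1 + L) hk4
    have hb : (1 + L) ^ (κ / 4) ≤ 2 * L ^ (κ / 4) := by
      calc (1 + L) ^ (κ / 4) ≤ (2 * L) ^ (κ / 4) :=
            Real.rpow_le_rpow (by linarith) (by linarith) hk4.le
        _ = 2 ^ (κ / 4) * L ^ (κ / 4) := Real.mul_rpow (by norm_num) hLpos.le
        _ ≤ 2 * L ^ (κ / 4) := by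
            refine mul_le_mul_of_nonneg_right ?_ (by positivity)
            calc (2 : ℝ) ^ (κ / 4) ≤ 2 ^ (1 : ℝ) :=
                  Real.rpow_le_rpow_of_exponent_le (by norm_num) (by linarith)
              _ = 2 := Real.rpow_one 2
    calc Real.log (1 + L) ≤ (1 + L) ^ (κ / 4) / (κ / 4) := ha
      _ ≤ (2 * L ^ (κ / 4)) / (κ / 4) := div_le_div_of_nonneg_right hb hk4.le
      _ = 4 / κ * (2 * L ^ (κ / 4)) := by field_simp
  have h3 : (1 + Real.log Z) ^ (K * T) ≤ Real.exp (κ / 2 * η * L + A * L0) := by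
    have hpos : 0 < 1 + L := by linarith
    rw [← hLdef]
    calc (1 + L) ^ (K * T) = Real.exp (((K * T : ℕ) : ℝ) * Real.log (1 + L)) := by
          rw [mul_comm (((K * T : ℕ) : ℝ)), ← Real.rpow_def_of_pos hpos, Real.rpow_natCast]
      _ ≤ Real.exp (κ / 2 * η * L + A * L0) := by
          apply Real.exp_le_exp.mpr
          have hlognn : 0 ≤ Real.log (1 + L) := Real.log_nonneg (by linarith)
          calc ((K * T : ℕ) : ℝ) * Real.log (1 + L)
              ≤ (K * (2 * B)) * (4 / κ * (2 * L ^ (κ / 4))) := by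
                push_cast
                apply mul_le_mul _ hlog1 hlognn (by positivity)
                exact mul_le_mul_of_nonneg_left hT2 (by positivity)
            _ = A * L ^ (1 - κ / 4) := by
                have hsplit : L ^ (1 - κ / 4) = B * L ^ (κ / 4) := by
                  rw [hBdef, ← Real.rpow_add hLpos]
                  congr 1; ring
                rw [hsplit, hAdef]; ring
            _ ≤ κ / 2 * η * L + A * (A / (κ / 2 * η)) ^ (4 / κ) :=
                rnk_exp_bound A (κ / 2 * η) κ L hA hδ hκ hκ1 hL1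
            _ = κ / 2 * η * L + A * L0 := by rw [hL0def]
  -- conclusion
  have hZexp : Z = Real.exp L := by rw [hLdef, Real.exp_log hZ0]
  have hTnn : 0 ≤ (T : ℝ) ^ (-w) := by positivity
  have hgoal : Z ^ (1 - (1 - κ) * η) = Real.exp (L * (1 - (1 - κ) * η)) := by
    rw [Real.rpow_def_of_pos hZ0, ← hLdef]
  rw [hgoal]
  calc (T : ℝ) ^ (-w) * (Z * (1 + Real.log Z) ^ (K * T))
      ≤ Real.exp (-((1 - κ / 2) * η * L)) * (Real.exp L * Real.exp (κ / 2 * η * L + A * L0)) := by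
        apply mul_le_mul h2 _ _ (Real.exp_pos _).le
        · rw [← hZexp]
          exact mul_le_mul_of_nonneg_left h3 hZ0.le
        · have : 0 ≤ 1 + Real.log Z := by rw [← hLdef]; linarith
          positivity
    _ = Real.exp (A * L0) * Real.exp (L * (1 - (1 - κ) * η)) := by
        rw [← Real.exp_add, ← Real.exp_add, ← Real.exp_add]
        congr 1; ring

end Pool.Agent.H98.ABCR
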